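import Mathlib
import Pool.Agent.Y859.SP.Mult

set_option autoImplicit false

/-!
# Tunnell's criterion: congruent multiples, uniformly in the base

For positive integers `n`, `c` with `n ^ 4 ≠ c ^ 2` the squarefree part of `c |n ^ 4 - c ^ 2|` is a
congruent number.  The values `n ^ 4 - c ^ 2` that are almost prime obey the density law and the
gap laws in short intervals, uniformly in all nonsquare `c` up to any power of the range, without
exceptions.  So every large squarefree `B` has squarefree congruent multiples `B m` with `m` small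
and almost prime, in both classes `B` and `-B` modulo `8`.
-/

namespace Pool.Agent.Results.MP_5f7262_nt.UniformMultiples

/-- `d` is the area of a right triangle with rational sides -/
def IsCongruent (d : ℕ) : Prop :=
  ∃ a b c : ℚ, 0 < a ∧ 0 < b ∧ 0 < c ∧ a ^ 2 + b ^ 2 = c ^ 2 ∧ a * b / 2 = (d : ℚ)

/-- the number `N(d)` of the problem -/
noncomputable def N (d : ℕ) : ℕ :=
  if d % 2 = 1 then {v : ℤ × ℤ × ℤ | 2 * v.1 ^ 2 + v.2.1 ^ 2 + 8 * v.2.2 ^ 2 = d}.ncard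
  else {v : ℤ × ℤ × ℤ | 2 * (4 * v.1 ^ 2 + v.2.1 ^ 2 + 8 * v.2.2 ^ 2) = d}.ncard

/-- the number `M(d)` of the problem -/
noncomputable def M (d : ℕ) : ℕ :=
  if d % 2 = 1 then {v : ℤ × ℤ × ℤ | 2 * v.1 ^ 2 + v.2.1 ^ 2 + 32 * v.2.2 ^ 2 = d}.ncard
  else {v : ℤ × ℤ × ℤ | 2 * (4 * v.1 ^ 2 + v.2.1 ^ 2 + 32 * v.2.2 ^ 2) = d}.ncard

/-- the value `|n ^ 4 - c ^ 2|` -/
def val (c n : ℕ) : ℕ := ((n : ℤ) ^ 4 - (c : ℤ) ^ 2).natAbs

/-- `|n ^ 4 - c ^ 2|` has at most `4 A r` prime factors (with multiplicity), all larger than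
`X ^ (1 / r)` -/
def Good (c A r X n : ℕ) : Prop :=
  (val c n).primeFactorsList.length ≤ 4 * A * r ∧
    ∀ p : ℕ, p.Prime → p ∣ val c n → (X : ℝ) ^ (1 / (r : ℝ)) < (p : ℝ)

open Classical in
/-- the density: the product over the primes `p ≤ y` of the proportion of the classes `n` modulo
`p` with `p ∤ n ^ 4 - c ^ 2` -/
noncomputable def V (c y : ℕ) : ℝ :=
  ∏ p ∈ (Finset.range (y + 1)).filter Nat.Prime,
    (1 - (((Finset.range p).filter (fun n : ℕ => p ∣ val c n)).card : ℝ) / (p : ℝ))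

open Classical in
/-- the number of the good `n` in `(Z, Z + Y]` with fewer than `l` good integers in `[n - T, n)` -/
noncomputable def Near (c A r X l T Z Y : ℕ) : ℕ :=
  ((Finset.Ioc Z (Z + Y)).filter (fun n => Good c A r X n ∧
    ((Finset.Ico (n - T) n).filter (fun m => Good c A r X m)).card < l)).card

/-- the probability that a Poisson variable of mean `x` is smaller than `l` -/
noncomputable def poisson (l : ℕ) (x : ℝ) : ℝ :=
  ∑ j ∈ Finset.range l, Real.exp (-x) * x ^ j / j.factorial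

lemma sq_mod_eight (y : ℤ) : y ^ 2 % 8 = 0 ∨ y ^ 2 % 8 = 1 ∨ y ^ 2 % 8 = 4 := by
  have h : y % 8 = 0 ∨ y % 8 = 1 ∨ y % 8 = 2 ∨ y % 8 = 3 ∨ y % 8 = 4 ∨ y % 8 = 5 ∨ y % 8 = 6 ∨
      y % 8 = 7 := by omega
  rcases h with h | h | h | h | h | h | h | h <;> simp [pow_two, Int.mul_emod, h]

lemma empty_odd (d : ℕ) (hd : d % 8 = 5 ∨ d % 8 = 7) (e : ℤ) :
    {v : ℤ × ℤ × ℤ | 2 * v.1 ^ 2 + v.2.1 ^ 2 + 8 * e * v.2.2 ^ 2 = d} = ∅ := by
  rw [Set.eq_empty_iff_forall_notMem]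
  rintro ⟨x, y, z⟩ hv
  simp only [Set.mem_setOf_eq] at hv
  have hx := sq_mod_eight x
  have hy := sq_mod_eight y
  obtain ⟨X, hX⟩ : ∃ X, X = x ^ 2 := ⟨_, rfl⟩
  obtain ⟨Y, hY⟩ : ∃ Y, Y = y ^ 2 := ⟨_, rfl⟩
  obtain ⟨Z, hZ⟩ : ∃ Z, Z = e * z ^ 2 := ⟨_, rfl⟩
  rw [mul_assoc, ← hZ, ← hX, ← hY] at hv
  rw [← hX] at hx
  rw [← hY] at hy
  omega

lemma empty_even (d : ℕ) (hd : d % 8 = 6) (e : ℤ) :
    {v : ℤ × ℤ × ℤ | 2 * (4 * v.1 ^ 2 + v.2.1 ^ 2 + 8 * e * v.2.2 ^ 2) = d} = ∅ := by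
  rw [Set.eq_empty_iff_forall_notMem]
  rintro ⟨x, y, z⟩ hv
  simp only [Set.mem_setOf_eq] at hv
  have hy := sq_mod_eight y
  obtain ⟨X, hX⟩ : ∃ X, X = x ^ 2 := ⟨_, rfl⟩
  obtain ⟨Y, hY⟩ : ∃ Y, Y = y ^ 2 := ⟨_, rfl⟩
  obtain ⟨Z, hZ⟩ : ∃ Z, Z = e * z ^ 2 := ⟨_, rfl⟩
  rw [mul_assoc, ← hZ, ← hX, ← hY] at hv
  rw [← hY] at hy
  omega

/-- the criterion's equation holds trivially in the classes `5, 6, 7` -/
lemma crit (d : ℕ) (hd : d % 8 = 5 ∨ d % 8 = 6 ∨ d % 8 = 7) : N d = 2 * M d := by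
  unfold N M
  by_cases h : d % 2 = 1
  · have h1 : d % 8 = 5 ∨ d % 8 = 7 := by omega
    have e1 := empty_odd d h1 1
    have e4 := empty_odd d h1 4
    norm_num at e1 e4
    rw [if_pos h, if_pos h, e1, e4]
    simp
  · have h1 : d % 8 = 6 := by omega
    have e1 := empty_even d h1 1
    have e4 := empty_even d h1 4
    norm_num at e1 e4
    rw [if_neg h, if_neg h, e1, e4]
    simp

/-- **Congruent multiples, uniformly in the base.**

(1) There is `v > 0` such that for all `A`, `θ > 0`, `l₀`, `x₀` and `ε > 0`, for all large `r` and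
all large `X`, for *every* nonsquare `c ≤ X ^ A` with density `V = V c ⌊X ^ (1 / r)⌋`:
`V ≥ v / (log X) ^ 4`; every interval `(Z, Z + Y]` with `X ^ θ ≤ Y` and `Z + Y ≤ X ^ A` contains
`Y V (P(Poisson(T V) < l) + O(ε))` good integers `n` with fewer than `l` good integers in
`[n - T, n)`, whenever `l ≤ l₀` or `T V ≤ x₀`; and for each good `n > 0` the value
`|n ^ 4 - c ^ 2|` is not `0` and every `d` with `c |n ^ 4 - c ^ 2| = e ^ 2 d` is congruent.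

(2) For every `ε > 0` there are `R` and `B₀` such that every squarefree `B ≥ B₀` has, for both
signs `s`, a multiple `B m` that is squarefree, congruent and `≡ s B` modulo `8`, with
`m ≤ B ^ (3 / 2 + ε)` having at most `R` prime factors, all of them larger than `B ^ (1 / R)`;
if `B m` is `5`, `6` or `7` modulo `8` then `N (B m) = 2 M (B m)`. -/
theorem result :
    (∃ v : ℝ, 0 < v ∧ ∀ (A : ℕ) (θ : ℝ), 0 < θ → ∀ (l₀ : ℕ) (x₀ ε : ℝ), 0 < ε →
      ∃ r₀ : ℕ, ∀ r : ℕ, r₀ ≤ r → ∃ X₀ : ℕ, ∀ X : ℕ, X₀ ≤ X →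
        ∀ c : ℕ, ¬ IsSquare c → c ≤ X ^ A →
          v / Real.log X ^ 4 ≤ V c ⌊(X : ℝ) ^ (1 / (r : ℝ))⌋₊ ∧
          (∀ Z Y : ℕ, (X : ℝ) ^ θ ≤ Y → Z + Y ≤ X ^ A →
            ∀ l T : ℕ, (l ≤ l₀ ∨ T * V c ⌊(X : ℝ) ^ (1 / (r : ℝ))⌋₊ ≤ x₀) →
              |(Near c A r X l T Z Y : ℝ) - Y * V c ⌊(X : ℝ) ^ (1 / (r : ℝ))⌋₊ *
                poisson l (T * V c ⌊(X : ℝ) ^ (1 / (r : ℝ))⌋₊)| ≤
                ε * (Y * V c ⌊(X : ℝ) ^ (1 / (r : ℝ))⌋₊)) ∧
          (∀ n : ℕ, 0 < n → Good c A r X n → val c n ≠ 0 ∧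
            ∀ d e : ℕ, c * val c n = e ^ 2 * d → IsCongruent d)) ∧
    (∀ ε : ℝ, 0 < ε → ∃ R B₀ : ℕ, 1 ≤ R ∧ ∀ B : ℕ, B₀ ≤ B → Squarefree B →
      ∀ s : ℤ, (s = 1 ∨ s = -1) → ∃ m : ℕ, Squarefree (B * m) ∧
        (m : ℝ) ≤ (B : ℝ) ^ (3 / 2 + ε) ∧ m.primeFactorsList.length ≤ R ∧
        (∀ p : ℕ, p.Prime → p ∣ m → (B : ℝ) ^ (1 / (R : ℝ)) < (p : ℝ)) ∧
        ((B * m : ℕ) : ℤ) ≡ s * B [ZMOD 8] ∧ IsCongruent (B * m) ∧
        ((B * m) % 8 = 5 ∨ (B * m) % 8 = 6 ∨ (B * m) % 8 = 7 → N (B * m) = 2 * M (B * m))) := by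
  constructor
  · obtain ⟨v, hv, h⟩ := Pool.Agent.Y859.SP.Cg.gap_cf
    refine ⟨v, hv, ?_⟩
    intro A θ hθ l₀ x₀ ε hε
    obtain ⟨r₀, h1⟩ := h A θ hθ l₀ x₀ ε hε
    refine ⟨max r₀ 1, ?_⟩
    intro r hr
    have hr1 : 1 ≤ r := (le_max_right _ _).trans hr
    have hrpos : (0 : ℝ) < r := by exact_mod_cast (by omega : 0 < r)
    have hpow : Filter.Tendsto (fun X : ℕ => (X : ℝ) ^ (1 / (r : ℝ))) Filter.atTop Filter.atTop :=
      (tendsto_rpow_atTop (by positivity)).comp tendsto_natCast_atTop_atTop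
    have hev := (h1 r ((le_max_left _ _).trans hr)).and (hpow.eventually_ge_atTop 2)
    rw [Filter.eventually_atTop] at hev
    obtain ⟨X₀, hX₀⟩ := hev
    refine ⟨X₀, ?_⟩
    intro X hX c hc hcX
    obtain ⟨h2, h3⟩ := hX₀ X hX
    obtain ⟨h4, h5⟩ := h2 c hc hcX
    have hdvd : ∀ p n : ℕ, p ∣ val c n ↔ (p : ℤ) ∣ (n : ℤ) ^ 4 - (c : ℤ) ^ 2 := by
      intro p n
      unfold val
      exact Int.natCast_dvd.symm
    have hVeq : ∀ y : ℕ, V c y = Pool.Agent.W123.RP.Vq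
        (Pool.Agent.W123.RU.Poly.Q (Pool.Agent.Y859.SP.Cg.cf c)) y := by
      intro y
      rw [Pool.Agent.Y859.SP.Cg.V_eq]
      unfold V
      simp only [hdvd]
    have hGeq : ∀ n : ℕ, Good c A r X n ↔ Pool.Agent.Y859.SP.Cg.Good c A r X n := by
      intro n
      unfold Good Pool.Agent.Y859.SP.Cg.Good
      simp only [hdvd]
      rfl
    classical
    have hNeq : ∀ l T Z Y : ℕ, Near c A r X l T Z Y =
        Pool.Agent.Y859.SP.Cg.Near c A r X l T Z Y := by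
      intro l T Z Y
      unfold Near Pool.Agent.Y859.SP.Cg.Near
      have e4 : ∀ n : ℕ, (Finset.Ico (n - T) n).filter (fun m => Good c A r X m) =
          (Finset.Ico (n - T) n).filter (fun m => Pool.Agent.Y859.SP.Cg.Good c A r X m) :=
        fun n => Finset.filter_congr (fun m _ => hGeq m)
      congr 1
      apply Finset.filter_congr
      intro n _
      rw [hGeq n, e4 n]
    rw [hVeq]
    refine ⟨h4, ?_, ?_⟩
    · intro Z Y hY hZY l T hlT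
      rw [hNeq]
      exact h5 Z Y hY hZY l T hlT
    · intro n hn hG
      have hv0 : val c n ≠ 0 := by
        intro h0
        have h6 := hG.2 2 Nat.prime_two (by rw [h0]; exact dvd_zero 2)
        push_cast at h6
        linarith
      refine ⟨hv0, ?_⟩
      intro d e hde
      have hc1 : 0 < c := by
        rcases Nat.eq_zero_or_pos c with h | h
        · exact absurd (h ▸ IsSquare.zero) hc
        · exact h
      exact Pool.Agent.Y859.SP.Cg.cong_of' c n e d hn hc1 hv0 hde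
  · intro ε hε
    obtain ⟨R, B₀, hR, h⟩ := Pool.Agent.Y859.SP.Cg.multiples ε hε
    refine ⟨R, B₀, hR, ?_⟩
    intro B hB hsq s hs
    obtain ⟨m, m1, m2, m3, m4, m5, m6⟩ := h B hB hsq s hs
    exact ⟨m, m1, m2, m3, m4, m5, m6, fun h8 => crit _ h8⟩

end Pool.Agent.Results.MP_5f7262_nt.UniformMultiples
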